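import Pool.Agent.K3h94.AT.Main
import Pool.Agent.K3h94.AT.Diag
import Pool.Agent.K3h66.AT.CNT
import Pool.Agent.K3h79.AT.LOW
import Pool.Agent.K3h4.AT.NZ
import Pool.Agent.K3h69.AT.VAL

/-!
# The valuation of `Im ∏ (1 + k i)` at primes `p ≡ 1 (mod 4)` outside a sparse set

Let `a(n) = Im ∏_{k=0}^n (1 + k i)` and let `p ≡ 1 (mod 4)` be a prime.

1. The `p`-part of `(n + 1)!` divides `a(n)`; so `(p - 1) ν_p(a(n)) ≥ n + 1 - (p - 1) (log_p (n + 1) + 1)`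
   whenever `a(n) ≠ 0`.
2. For every `ε > 0` call `n ≥ 1` exceptional if `|(p - 1) ν_p(a(n)) / n - 1| ≥ ε` (with `ν_p(0) = 0`). Two
   exceptional numbers `n < m`, `n` large, satisfy `m - n ≥ c n / log n` with `c = c(p, ε) > 0`.
3. So at most `C (log N)²` numbers `n ≤ N` are exceptional.
4. There is a set `Z` with at most `(log N)^{2 + δ}` elements up to `N` (for every `δ > 0` and all large `N`) such
   that `(p - 1) ν_p(a(n)) / n → 1` as `n → ∞` outside `Z`.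

Proof: (1) modulo powers of `p` the number `a(n)` is a linear combination of two products of `n + 1`
consecutive integers. (2) If `n` and `m = n + h ≤ 2 n` are exceptional, then
`a(n + h) = Re P_n · t + a(n) · s` with `s + t i = ∏_{j=1}^h (1 + (n + j) i)`, and the exact valuation of `Re P_n`
is half of that of `∏ (1 + k²)`, so `t` is divisible by a power of `p` with exponent `≥ ε n / (2 (p - 1))`. Since
`t ≠ 0` (the argument of the short product is not a multiple of `π / 2`) and `|t| ≤ n^{3 h / 2}`, `h` is large.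

Bricks: helper79 (`LOW`), helper69 (`VAL`), helper4 (`NZ`), helper66 (`CNT`).
-/

set_option autoImplicit false

open Filter Topology

namespace Pool.Agent.Results.MP_054fa1_nt.PolylogExceptions

/-- `a(n) = Im ∏_{k=0}^n (1 + k i)` -/
def a (n : ℕ) : ℤ := (∏ k ∈ Finset.range (n + 1), (⟨1, (k : ℤ)⟩ : GaussianInt)).im

/-- `n ≥ 1` is exceptional: `(p - 1) ν_p(a(n)) / n` is not in `(1 - ε, 1 + ε)`; here `ν_p(0) = 0` -/
def Exc (p : ℕ) (ε : ℝ) (n : ℕ) : Prop :=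
  1 ≤ n ∧ ε ≤ |((p : ℝ) - 1) * (padicValInt p (a n) : ℝ) / n - 1|

/-- **Theorem.** -/
theorem result (p : ℕ) (hp : p.Prime) (hp4 : p % 4 = 1) :
    (∀ n, (p : ℤ) ^ padicValNat p (n + 1).factorial ∣ a n) ∧
    (∀ n, a n ≠ 0 → (n : ℝ) + 1 - ((p : ℝ) - 1) * (Nat.log p (n + 1) + 1) ≤
      ((p : ℝ) - 1) * (padicValInt p (a n) : ℝ)) ∧
    (∀ ε : ℝ, 0 < ε →
      (∃ (c : ℝ) (n₀ : ℕ), 0 < c ∧ ∀ n m : ℕ, n₀ ≤ n → n < m → Exc p ε n → Exc p ε m →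
        c * n / Real.log n ≤ (m : ℝ) - n) ∧
      ∃ C : ℝ, ∀ N : ℕ, 2 ≤ N → ({n | n ≤ N ∧ Exc p ε n}.ncard : ℝ) ≤ C * Real.log N ^ 2) ∧
    ∃ Z : Set ℕ, (∀ δ : ℝ, 0 < δ → ∀ᶠ N : ℕ in atTop,
      ({n | n ∈ Z ∧ n ≤ N}.ncard : ℝ) ≤ Real.log N ^ (2 + δ)) ∧
      Tendsto (fun n : ℕ => ((p : ℝ) - 1) * (padicValInt p (a n) : ℝ) / n) (atTop ⊓ 𝓟 Zᶜ) (𝓝 1) := by
  obtain ⟨h1, h2, h3⟩ := Pool.Agent.K3h94.AT.main Pool.Agent.K3h79.AT.t_LOW
    Pool.Agent.K3h69.AT.t_VAL Pool.Agent.K3h4.AT.t_NZ Pool.Agent.K3h66.AT.t_CNT p hp hp4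
  exact ⟨h1, h2, h3, Pool.Agent.K3h94.AT.diag _ fun ε hε => (h3 ε hε).2⟩

end Pool.Agent.Results.MP_054fa1_nt.PolylogExceptions
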